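import Pool.Agent.Helper51.AJ.St
import Pool.Agent.Helper51.AJ.Basic

/-!
# Project AJ (MP_d63854_co): module ASC (three vertices joined to the rest)
-/

set_option autoImplicit false

namespace Pool.Agent.Helper66.AJ

open Pool.Agent.Helper51.AJ

private theorem iso_of_minor {V W : Type} [Finite W] {G : SimpleGraph V} {E : SimpleGraph W} (hG : ExMinor G)
    (hm : IsMinor E G) (hE : ¬ Apex E) : Nonempty (E ≃g G) := by
  by_contra h
  exact hE (hG.2 W E hm h)

/-- representatives of a minor model -/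
private theorem reps {V W : Type} {H : SimpleGraph W} {G : SimpleGraph V} (h : IsMinor H G) :
    ∃ (φ : W → Set V) (f : W → V), Function.Injective f ∧ (∀ w, f w ∈ φ w) ∧
      (∀ w w', w ≠ w' → Disjoint (φ w) (φ w')) ∧ ∀ w w', H.Adj w w' → ∃ x ∈ φ w, ∃ y ∈ φ w', G.Adj x y := by
  obtain ⟨φ, h1, h2, h3⟩ := h
  have hne : ∀ w, (φ w).Nonempty := fun w => con_nonempty (h1 w)
  choose f hf using hne
  refine ⟨φ, f, ?_, hf, h2, h3⟩
  intro w w' hww
  by_contra hne
  exact Set.disjoint_left.1 (h2 w w' hne) (hf w) (hww ▸ hf w')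

private theorem card_le_of_minor {V W : Type} [Finite V] {H : SimpleGraph W} {G : SimpleGraph V}
    (h : IsMinor H G) : Nat.card W ≤ Nat.card V := by
  obtain ⟨φ, f, hf, -⟩ := reps h
  exact Nat.card_le_card_of_injective f hf

private theorem full_of_minor {V W : Type} [Finite V] {H : SimpleGraph W} {G : SimpleGraph V}
    (h : IsMinor H G) (hc : Nat.card W = Nat.card V) :
    ∃ f : W → V, Function.Bijective f ∧ ∀ w w', H.Adj w w' → G.Adj (f w) (f w') := by
  obtain ⟨φ, f, hf, hm, hd, ha⟩ := reps h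
  have : Finite W := Finite.of_injective f hf
  have hb : Function.Bijective f :=
    (Nat.bijective_iff_injective_and_card f).2 ⟨hf, hc⟩
  refine ⟨f, hb, fun w w' hww => ?_⟩
  have hs : ∀ w, ∀ z ∈ φ w, z = f w := by
    intro w z hz
    obtain ⟨w', rfl⟩ := hb.2 z
    by_contra hne
    exact Set.disjoint_left.1 (hd w w' fun h => hne (by rw [h])) hz (hm w')
  obtain ⟨x, hx, y, hy, hxy⟩ := ha w w' hww
  rwa [hs w x hx, hs w' y hy] at hxy

private theorem six {V : Type} [Finite V] {G : SimpleGraph V} (hG : ExMinor G) (h6 : Nat.card V = 6) :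
    Nonempty (E1 ≃g G) := by
  have hadj : ∀ x y : V, x ≠ y → G.Adj x y := by
    intro x y hxy
    obtain ⟨v, hvx, hvy⟩ : ∃ v : V, v ≠ x ∧ v ≠ y := by
      by_contra hcon
      push Not at hcon
      have h1 : (Set.univ : Set V) ⊆ {x, y} := by
        intro v _
        by_cases h : v = x
        · exact Or.inl h
        · exact Or.inr (hcon v h)
      have h2 := Set.ncard_le_ncard h1 (Set.toFinite _)
      rw [Set.ncard_univ, h6, Set.ncard_pair hxy] at h2
      omega
    have h5 : Nat.card ({v}ᶜ : Set V) = 5 := by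
      have h1 := Set.ncard_add_ncard_compl ({v} : Set V)
      rw [Set.ncard_singleton, h6] at h1
      rw [Nat.card_coe_set_eq]
      omega
    have hnp : ¬ Planar (G.induce {v}ᶜ) := fun h => hG.1 (Or.inr ⟨v, h⟩)
    have hmin : IsMinor (⊤ : SimpleGraph (Fin 5)) (G.induce {v}ᶜ) := by
      by_contra h1
      apply hnp
      refine ⟨h1, fun h2 => ?_⟩
      have h3 := card_le_of_minor h2
      rw [h5] at h3
      simp at h3
    obtain ⟨f, hf, ha⟩ := full_of_minor hmin (by rw [h5]; simp)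
    obtain ⟨i, hi⟩ := hf.2 ⟨x, fun h => hvx h.symm⟩
    obtain ⟨j, hj⟩ := hf.2 ⟨y, fun h => hvy h.symm⟩
    have hij : i ≠ j := by
      rintro rfl
      rw [hi] at hj
      exact hxy (congrArg Subtype.val hj)
    have h1 := ha i j hij
    rw [hi, hj] at h1
    exact h1
  have : Fintype V := Fintype.ofFinite V
  obtain ⟨e⟩ : Nonempty (Fin 6 ≃ V) := by
    rw [← Fintype.card_eq, Fintype.card_fin, ← Nat.card_eq_fintype_card, h6]
  refine ⟨⟨e, ?_⟩⟩
  intro a b
  constructor
  · intro h h'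
    exact h.ne (by rw [h'])
  · intro h
    exact hadj _ _ (e.injective.ne h)

private theorem to_jn {V : Type} (G : SimpleGraph V) (A S : Set V) {m : ℕ} (p : Fin m → V)
    (D : SimpleGraph (Fin m)) (hcov : ∀ x ∈ S, (∃ i, p i = x) ∨ x ∉ A)
    (hD : ∀ i j, G.Adj (p i) (p j) → D.Adj i j) : IsMinor (G.induce S) (jn D (G.induce Aᶜ)) := by
  classical
  have hex : ∀ x : S, ∃ y : Fin m ⊕ (Aᶜ : Set V), Sum.elim p (fun z => z.1) y = x.1 := by
    intro x
    rcases hcov x.1 x.2 with ⟨i, hi⟩ | h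
    · exact ⟨Sum.inl i, hi⟩
    · exact ⟨Sum.inr ⟨x.1, h⟩, rfl⟩
  choose f hf using hex
  refine isMinor_of_hom f ?_ ?_
  · intro x y hxy
    apply Subtype.ext
    rw [← hf x, ← hf y, hxy]
  · intro x y hxy
    have h1 : G.Adj x.1 y.1 := hxy
    rw [← hf x, ← hf y] at h1
    rcases hx : f x with i | u <;> rcases hy : f y with j | v <;> rw [hx, hy] at h1
    · exact hD i j h1
    · trivial
    · trivial
    · exact h1

private theorem of_jn {V : Type} (G : SimpleGraph V) (A : Set V) (hA : Cpl G A) {m : ℕ} (p : Fin m → V)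
    (D : SimpleGraph (Fin m)) (hp : ∀ i, p i ∈ A) (hi : Function.Injective p)
    (hD : ∀ i j, D.Adj i j → G.Adj (p i) (p j)) : IsMinor (jn D (G.induce Aᶜ)) G := by
  refine isMinor_of_hom (Sum.elim p (fun z => z.1)) ?_ ?_
  · rintro (i | u) (j | v) h
    · exact congrArg Sum.inl (hi h)
    · exact absurd ((show p i = v.1 from h) ▸ hp i) v.2
    · exact absurd ((show u.1 = p j from h).symm ▸ hp j) u.2
    · exact congrArg Sum.inr (Subtype.ext h)
  · rintro (i | u) (j | v) h
    · exact hD i j h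
    · exact hA _ (hp i) _ v.2
    · exact (hA _ (hp j) _ u.2).symm
    · exact h

private theorem inj3 {X : Type} {a b c : X} (h12 : a ≠ b) (h13 : a ≠ c) (h23 : b ≠ c) :
    Function.Injective (![a, b, c] : Fin 3 → X) := by
  intro i j hij
  fin_cases i <;> fin_cases j
  · rfl
  · exact absurd hij h12
  · exact absurd hij h13
  · exact absurd hij.symm h12
  · rfl
  · exact absurd hij h23
  · exact absurd hij.symm h13
  · exact absurd hij.symm h23
  · rfl

private theorem e1_minor : IsMinor E1 (jn (⊤ : SimpleGraph (Fin 3)) (⊤ : SimpleGraph (Fin 3))) := by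
  refine isMinor_of_hom (fun x => (finSumFinEquiv (m := 3) (n := 3)).symm x) (Equiv.injective _) ?_
  intro a b hab
  have hne : (finSumFinEquiv (m := 3) (n := 3)).symm a ≠ (finSumFinEquiv (m := 3) (n := 3)).symm b :=
    (Equiv.injective _).ne hab.ne
  show (jn (⊤ : SimpleGraph (Fin 3)) (⊤ : SimpleGraph (Fin 3))).Adj _ _
  rcases ha : (finSumFinEquiv (m := 3) (n := 3)).symm a with i | i <;>
    rcases hb : (finSumFinEquiv (m := 3) (n := 3)).symm b with j | j <;> rw [ha, hb] at hne
  · exact fun h => hne (by rw [h])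
  · trivial
  · trivial
  · exact fun h => hne (by rw [h])

/-- two vertices of `A` are not adjacent and `B` is a cycle or a path -/
private theorem bad (h2 : StJnm) (h4 : StPlb) {V : Type} [Finite V] {G : SimpleGraph V} {A : Set V} {a b c : V}
    (hA : A = {a, b, c}) (hc : Cyc (G.induce Aᶜ)) (hab : ¬ G.Adj a b) : Planar (G.induce {c}ᶜ) := by
  have h1 : Planar (jn (⊥ : SimpleGraph (Fin 2)) (G.induce Aᶜ)) := (h4 _ _).1 hc
  refine h2.2.2 _ _ _ _ (to_jn G A {c}ᶜ ![a, b] ⊥ ?_ ?_) h1
  · intro x hx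
    by_cases hxa : x = a
    · exact Or.inl ⟨0, hxa.symm⟩
    by_cases hxb : x = b
    · exact Or.inl ⟨1, hxb.symm⟩
    · right
      rw [hA]
      rintro (h | h | h)
      · exact hxa h
      · exact hxb h
      · exact hx h
  · intro i j hij
    exfalso
    fin_cases i <;> fin_cases j
    · exact G.ne_of_adj hij rfl
    · exact hab hij
    · exact hab hij.symm
    · exact G.ne_of_adj hij rfl

theorem hASC (h1 : StTrn) (h2 : StJnm) (h3 : StAcy) (h4 : StPlb) (h5 : StFna) : StAsc := by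
  intro V _ G A hG hA hA3 hc3
  obtain ⟨-, ⟨hE1, hE2, hE3, -⟩, -⟩ := h5
  have hcard := Set.ncard_add_ncard_compl A
  rw [hA3] at hcard
  by_cases h33 : (Aᶜ).ncard = 3
  · left
    exact six hG (by omega)
  obtain ⟨a₁, a₂, a₃, h12, h13, h23, rfl⟩ := Set.ncard_eq_three.1 hA3
  set A : Set V := {a₁, a₂, a₃} with hAdef
  have m1 : a₁ ∈ A := Or.inl rfl
  have m2 : a₂ ∈ A := Or.inr (Or.inl rfl)
  have m3 : a₃ ∈ A := Or.inr (Or.inr rfl)
  have hp : ∀ i, (![a₁, a₂, a₃] : Fin 3 → V) i ∈ A := by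
    intro i
    fin_cases i
    · exact m1
    · exact m2
    · exact m3
  have hpi : Function.Injective (![a₁, a₂, a₃] : Fin 3 → V) := inj3 h12 h13 h23
  by_cases hdeg : ∀ v, ((G.induce Aᶜ).neighborSet v).ncard ≤ 2
  · -- all degrees at most two
    by_cases hac : (G.induce Aᶜ).IsAcyclic
    · exfalso
      apply hG.1
      right
      refine ⟨a₃, h2.2.2 _ _ _ _ (to_jn G A {a₃}ᶜ ![a₁, a₂] ⊤ ?_ ?_) ((h4 _ _).2 hac hdeg)⟩
      · intro x hx
        by_cases hxa : x = a₁
        · exact Or.inl ⟨0, hxa.symm⟩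
        by_cases hxb : x = a₂
        · exact Or.inl ⟨1, hxb.symm⟩
        · right
          rintro (h | h | h)
          · exact hxa h
          · exact hxb h
          · exact hx h
      · intro i j hij h
        rw [h] at hij
        exact G.ne_of_adj hij rfl
    by_cases hco : (G.induce Aᶜ).Connected
    · left
      have hcy : Cyc (G.induce Aᶜ) := ⟨hco, hdeg⟩
      have g12 : G.Adj a₁ a₂ := by
        by_contra h
        exact hG.1 (Or.inr ⟨a₃, bad h2 h4 hAdef hcy h⟩)
      have g13 : G.Adj a₁ a₃ := by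
        by_contra h
        have hA' : A = {a₁, a₃, a₂} := by
          rw [hAdef]
          ext x
          simp only [Set.mem_insert_iff, Set.mem_singleton_iff]
          tauto
        exact hG.1 (Or.inr ⟨a₂, bad h2 h4 hA' hcy h⟩)
      have g23 : G.Adj a₂ a₃ := by
        by_contra h
        have hA' : A = {a₂, a₃, a₁} := by
          rw [hAdef]
          ext x
          simp only [Set.mem_insert_iff, Set.mem_singleton_iff]
          tauto
        exact hG.1 (Or.inr ⟨a₁, bad h2 h4 hA' hcy h⟩)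
      have k1 : IsMinor (jn (⊤ : SimpleGraph (Fin 3)) (G.induce Aᶜ)) G := by
        refine of_jn G A hA ![a₁, a₂, a₃] ⊤ hp hpi ?_
        intro i j hij
        fin_cases i <;> fin_cases j
        · exact absurd rfl hij
        · exact g12
        · exact g13
        · exact g12.symm
        · exact absurd rfl hij
        · exact g23
        · exact g13.symm
        · exact g23.symm
        · exact absurd rfl hij
      have k2 : IsMinor (jn (⊤ : SimpleGraph (Fin 3)) (⊤ : SimpleGraph (Fin 3)))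
          (jn (⊤ : SimpleGraph (Fin 3)) (G.induce Aᶜ)) :=
        h2.1 _ _ _ _ _ _ _ _ (isMinor_refl _) ((h3 _ _).2.1 hac)
      exact iso_of_minor hG (h1.1 _ _ _ _ _ _ e1_minor (h1.1 _ _ _ _ _ _ k2 k1)) hE1
    · right; right
      have k1 : IsMinor (jn (⊥ : SimpleGraph (Fin 3)) (G.induce Aᶜ)) G :=
        of_jn G A hA ![a₁, a₂, a₃] ⊥ hp hpi fun i j hij => hij.elim
      have k2 : IsMinor E3 (jn (⊥ : SimpleGraph (Fin 3)) (G.induce Aᶜ)) :=
        h2.1 _ _ _ _ _ _ _ _ (isMinor_refl _) ((h3 _ _).2.2 hac hco)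
      exact iso_of_minor hG (h1.1 _ _ _ _ _ _ k2 k1) hE3
  · right; left
    push Not at hdeg
    obtain ⟨b, hb⟩ := hdeg
    obtain ⟨b₁, b₂, b₃, hb1, hb2, hb3, n12, n13, n23⟩ := (Set.two_lt_ncard_iff (Set.toFinite _)).1 hb
    refine iso_of_minor hG ?_ hE2
    have nb : ∀ c : (Aᶜ : Set V), c ∈ (G.induce Aᶜ).neighborSet b → G.Adj b.1 c.1 := fun c hc => hc
    have hq : ∀ i, G.Adj b.1 ((![b₁, b₂, b₃] : Fin 3 → (Aᶜ : Set V)) i).1 := by
      intro i
      fin_cases i
      · exact nb _ hb1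
      · exact nb _ hb2
      · exact nb _ hb3
    have hqi : Function.Injective (![b₁, b₂, b₃] : Fin 3 → (Aᶜ : Set V)) := inj3 n12 n13 n23
    refine isMinor_of_hom (Sum.elim (fun _ => b.1) (Sum.elim (![a₁, a₂, a₃] : Fin 3 → V)
      (fun i => ((![b₁, b₂, b₃] : Fin 3 → (Aᶜ : Set V)) i).1))) ?_ ?_
    · rintro (i | i | i) (j | j | j) h
      · exact congrArg Sum.inl (Subsingleton.elim _ _)
      · exact absurd ((show b.1 = (![a₁, a₂, a₃] : Fin 3 → V) j from h).symm ▸ hp j) b.2
      · exact absurd h (G.ne_of_adj (hq j))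
      · exact absurd ((show (![a₁, a₂, a₃] : Fin 3 → V) i = b.1 from h) ▸ hp i) b.2
      · exact congrArg (fun x => Sum.inr (Sum.inl x)) (hpi h)
      · exact absurd ((show (![a₁, a₂, a₃] : Fin 3 → V) i
          = ((![b₁, b₂, b₃] : Fin 3 → (Aᶜ : Set V)) j).1 from h) ▸ hp i)
          ((![b₁, b₂, b₃] : Fin 3 → (Aᶜ : Set V)) j).2
      · exact absurd h.symm (G.ne_of_adj (hq i))
      · exact absurd ((show ((![b₁, b₂, b₃] : Fin 3 → (Aᶜ : Set V)) i).1
          = (![a₁, a₂, a₃] : Fin 3 → V) j from h).symm ▸ hp j)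
          ((![b₁, b₂, b₃] : Fin 3 → (Aᶜ : Set V)) i).2
      · exact congrArg (fun x => Sum.inr (Sum.inr x)) (hqi (Subtype.ext h))
    · rintro (i | i | i) (j | j | j) h
      · exact absurd (Subsingleton.elim _ _) h
      · exact (hA _ (hp j) _ b.2).symm
      · exact hq j
      · exact hA _ (hp i) _ b.2
      · exact absurd h (by simp [jn])
      · exact hA _ (hp i) _ ((![b₁, b₂, b₃] : Fin 3 → (Aᶜ : Set V)) j).2
      · exact (hq i).symm
      · exact (hA _ (hp j) _ ((![b₁, b₂, b₃] : Fin 3 → (Aᶜ : Set V)) i).2).symm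
      · exact absurd h (by simp [jn])

end Pool.Agent.Helper66.AJ
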